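import Pool.Agent.W205.UL.Leaves

/-!
# Binary trees with many leaves in ultrametric spaces
-/

set_option autoImplicit false
set_option linter.unusedSectionVars false

namespace Pool.Agent.W205.UL

open Pool.Agent.H278R2.Ultra Pool.Agent.H278R2.Ultra.BT Pool.Agent.H278R2.UltraLocal

variable {V : Type*} [DecidableEq V]

/-- the convexity inequality -/
theorem conv_ineq {e a b : ℝ} (he : 1 ≤ e) (hb : 0 < b) (hab : b ≤ a) :
    a ^ e + ((2:ℝ) ^ e - 1) * b ^ e ≤ (a + b) ^ e := by
  have ha : 0 < a := hb.trans_le hab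
  have hcv := convexOn_rpow he
  have h0 : 0 ≤ (a - b) / a := div_nonneg (by linarith) ha.le
  have h1 : 0 ≤ b / a := by positivity
  have hs : (a - b) / a + b / a = 1 := by field_simp; ring
  have k1 := hcv.2 (show (0:ℝ) ≤ a + b by positivity) (show (0:ℝ) ≤ b from hb.le) h0 h1 hs
  have k2 := hcv.2 (show (0:ℝ) ≤ a + b by positivity) (show (0:ℝ) ≤ b from hb.le) h1 h0
    (by rw [add_comm]; exact hs)
  simp only [smul_eq_mul] at k1 k2
  have e1 : (a - b) / a * (a + b) + b / a * b = a := by field_simp; ring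
  have e2 : b / a * (a + b) + (a - b) / a * b = 2 * b := by field_simp; ring
  rw [e1] at k1
  rw [e2, Real.mul_rpow (by norm_num) hb.le] at k2
  have k3 : (a - b) / a * (a + b) ^ e + b / a * b ^ e + (b / a * (a + b) ^ e + (a - b) / a * b ^ e) =
      (a + b) ^ e + b ^ e := by
    have : (a - b) / a * (a + b) ^ e + b / a * b ^ e +
        (b / a * (a + b) ^ e + (a - b) / a * b ^ e) =
        ((a - b) / a + b / a) * (a + b) ^ e + ((a - b) / a + b / a) * b ^ e := by ring
    rw [this, hs]; ring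
  linarith

/-- A finite set in an ultrametric space without equilateral sets of more than `K` points contains
a binary tree with many leaves. -/
theorem grow {ρ : V → V → ℕ} (hρ : IsUltrametric ρ) (K : ℕ) (hK2 : 2 ≤ K)
    (hK : ∀ S : Finset V, Equilateral ρ S → S.card ≤ K) : ∀ (n : ℕ) (W : Finset V),
    W.card ≤ n → W.Nonempty → ∃ t, Valid ρ t ∧ leaves t ⊆ W ∧
      (W.card : ℝ) ≤ (nl (fun _ => True) t : ℝ) ^ (Real.logb 2 K) := by
  have he : 1 ≤ Real.logb 2 K := by
    rw [Real.le_logb_iff_rpow_le (by norm_num) (by positivity), Real.rpow_one]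
    exact_mod_cast hK2
  have h2K : (2:ℝ) ^ (Real.logb 2 K) = K :=
    Real.rpow_logb (by norm_num) (by norm_num) (by positivity)
  set e := Real.logb 2 K with hedef
  intro n
  induction n with
  | zero =>
    intro W hn hW
    rw [← Finset.card_pos] at hW
    omega
  | succ n ih =>
    intro W hn hW
    by_cases hcard : W.card ≤ 1
    · obtain ⟨x, hx⟩ := hW
      refine ⟨leaf x, trivial, by simpa [leaves] using hx, ?_⟩
      have : (W.card : ℝ) ≤ 1 := by exact_mod_cast hcard
      simpa [nl] using this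
    push Not at hcard
    obtain ⟨x', hx', y', hy', hxy'⟩ := Finset.one_lt_card.1 hcard
    obtain ⟨p, hp, hmax⟩ := Finset.exists_max_image (W ×ˢ W) (fun p => ρ p.1 p.2)
      ⟨(x', y'), by simp [hx', hy']⟩
    obtain ⟨x0, y0⟩ := p
    simp only [Finset.mem_product] at hp hmax
    obtain ⟨hx0, hy0⟩ := hp
    set D := ρ x0 y0 with hD
    have hle : ∀ x ∈ W, ∀ y ∈ W, ρ x y ≤ D := fun x hx y hy => hmax (x, y) ⟨hx, hy⟩
    have hDpos : 0 < D := by
      have h1 := hle x' hx' y' hy'
      have h2 : ρ x' y' ≠ 0 := fun h => hxy' ((hρ.zero_iff _ _).1 h)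
      omega
    -- the class of a point
    set cl : V → Finset V := fun x => W.filter (fun y => ρ x y < D) with hcl
    have mem_cl : ∀ x y, y ∈ cl x ↔ y ∈ W ∧ ρ x y < D := by
      intro x y
      simp [hcl]
    have cl_eq : ∀ x ∈ W, ∀ y ∈ W, ρ x y < D → cl x = cl y := by
      intro x _ y _ hxy
      ext z
      rw [mem_cl, mem_cl]
      constructor
      · rintro ⟨h1, h2⟩
        refine ⟨h1, ?_⟩
        have h3 := hρ.tri y x z
        rw [hρ.symm y x] at h3
        exact lt_of_le_of_lt h3 (max_lt hxy h2)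
      · rintro ⟨h1, h2⟩
        exact ⟨h1, lt_of_le_of_lt (hρ.tri x y z) (max_lt hxy h2)⟩
    have self_cl : ∀ x ∈ W, x ∈ cl x := by
      intro x hx
      rw [mem_cl, self_zero hρ]
      exact ⟨hx, hDpos⟩
    have inner : ∀ x ∈ W, ∀ y ∈ cl x, ∀ z ∈ cl x, ρ y z < D := by
      intro x _ y hy z hz
      rw [mem_cl] at hy hz
      have h3 := hρ.tri y x z
      rw [hρ.symm y x] at h3
      exact lt_of_le_of_lt h3 (max_lt hy.2 hz.2)
    have outer : ∀ x ∈ W, ∀ y ∈ W, cl x ≠ cl y → ∀ a ∈ cl x, ∀ b ∈ cl y, ρ a b = D := by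
      intro x hx y hy hne a ha b hb
      rw [mem_cl] at ha hb
      refine le_antisymm (hle a ha.1 b hb.1) ?_
      by_contra hcon
      push Not at hcon
      apply hne
      rw [cl_eq x hx a ha.1 ha.2, cl_eq a ha.1 b hb.1 hcon, cl_eq y hy b hb.1 hb.2]
    have combine : ∀ x ∈ W, ∀ y ∈ W, cl x ≠ cl y → ∀ s t, Valid ρ s → Valid ρ t →
        leaves s ⊆ cl x → leaves t ⊆ cl y →
        Valid ρ (node s t) ∧ leaves (node s t) ⊆ W := by
      intro x hx y hy hne s t hs ht' ls lt
      refine ⟨⟨hs, ht', D, ?_, ?_, ?_⟩, ?_⟩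
      · intro a ha b hb
        exact outer x hx y hy hne a (ls ha) b (lt hb)
      · intro a ha b hb
        exact inner x hx a (ls ha) b (ls hb)
      · intro a ha b hb
        exact inner y hy a (lt ha) b (lt hb)
      · intro a ha
        simp only [leaves, Finset.mem_union] at ha
        rcases ha with ha | ha
        · exact ((mem_cl _ _).1 (ls ha)).1
        · exact ((mem_cl _ _).1 (lt ha)).1
    have other : ∀ x ∈ W, ∃ y ∈ W, cl x ≠ cl y := by
      intro x hx
      by_contra hcon
      push Not at hcon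
      have h1 := self_cl x0 hx0
      rw [← hcon x0 hx0, mem_cl] at h1
      have h2 := self_cl y0 hy0
      rw [← hcon y0 hy0, mem_cl] at h2
      have h3 := hρ.tri x0 x y0
      rw [hρ.symm x0 x] at h3
      have h4 := lt_of_le_of_lt h3 (max_lt h1.2 h2.2)
      omega
    have hclW : ∀ x, cl x ⊆ W := fun x y hy => ((mem_cl _ _).1 hy).1
    have hsmall : ∀ x ∈ W, (cl x).card ≤ n := by
      intro x hx
      obtain ⟨y, hy, hne⟩ := other x hx
      have h1 : y ∉ cl x := by
        intro h
        rw [mem_cl] at h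
        exact hne (cl_eq x hx y hy h.2)
      have h2 : cl x ⊂ W := by
        refine ⟨hclW x, fun h => h1 (h hy)⟩
      have := Finset.card_lt_card h2
      omega
    -- the best trees in the classes
    have htree : ∀ x ∈ W, ∃ t, Valid ρ t ∧ leaves t ⊆ cl x ∧
        ((cl x).card : ℝ) ≤ (nl (fun _ => True) t : ℝ) ^ e := fun x hx =>
      ih (cl x) (hsmall x hx) ⟨x, self_cl x hx⟩
    -- number of classes
    set 𝒞 := W.image cl with h𝒞
    have hcover : W.card ≤ ∑ C ∈ 𝒞, C.card := by
      have h1 : W ⊆ 𝒞.biUnion id := by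
        intro x hx
        rw [Finset.mem_biUnion]
        exact ⟨cl x, Finset.mem_image_of_mem _ hx, self_cl x hx⟩
      exact (Finset.card_le_card h1).trans Finset.card_biUnion_le
    have hnum : 𝒞.card ≤ K := by
      have hrep : ∀ C : Finset V, C ∈ 𝒞 → ∃ x ∈ W, cl x = C := by
        intro C hC
        simpa [h𝒞] using hC
      classical
      let g : Finset V → V := fun C => if hC : C ∈ 𝒞 then (hrep C hC).choose else x0
      have hg : ∀ C ∈ 𝒞, g C ∈ W ∧ cl (g C) = C := by
        intro C hC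
        have h1 := (hrep C hC).choose_spec
        simp only [g, dif_pos hC]
        exact h1
      have hinj : Set.InjOn g 𝒞 := by
        intro C hC C' hC' heq
        rw [← (hg C hC).2, ← (hg C' hC').2, heq]
      rw [← Finset.card_image_of_injOn hinj]
      apply hK
      refine ⟨D, ?_⟩
      intro a ha b hb hab
      rw [Finset.mem_image] at ha hb
      obtain ⟨C, hC, rfl⟩ := ha
      obtain ⟨C', hC', rfl⟩ := hb
      have hCC : C ≠ C' := fun h => hab (by rw [h])
      have h1 := hg C hC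
      have h2 := hg C' hC'
      exact outer _ h1.1 _ h2.1 (by rw [h1.2, h2.2]; exact hCC) _ (self_cl _ h1.1) _
        (self_cl _ h2.1)
    -- choose a tree for every class
    have hT : ∀ C : Finset V, ∃ t, C ∈ 𝒞 → Valid ρ t ∧ leaves t ⊆ C ∧
        (C.card : ℝ) ≤ (nl (fun _ => True) t : ℝ) ^ e := by
      intro C
      by_cases hC : C ∈ 𝒞
      · obtain ⟨x, hx, rfl⟩ := Finset.mem_image.1 hC
        obtain ⟨t, ht⟩ := htree x hx
        exact ⟨t, fun _ => ht⟩
      · exact ⟨leaf x0, fun h => absurd h hC⟩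
    choose T hT using hT
    have h𝒞ne : 𝒞.Nonempty := hW.image cl
    obtain ⟨C1, hC1, hmax1⟩ := Finset.exists_max_image 𝒞 (fun C => nl (fun _ => True) (T C)) h𝒞ne
    have h2 : (𝒞.erase C1).Nonempty := by
      obtain ⟨x, hx, rfl⟩ := Finset.mem_image.1 hC1
      obtain ⟨y, hy, hne⟩ := other x hx
      exact ⟨cl y, Finset.mem_erase.2 ⟨hne.symm, Finset.mem_image_of_mem _ hy⟩⟩
    obtain ⟨C2, hC2, hmax2⟩ := Finset.exists_max_image (𝒞.erase C1)
      (fun C => nl (fun _ => True) (T C)) h2
    have hC2' := Finset.mem_of_mem_erase hC2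
    have hne12 : C2 ≠ C1 := (Finset.mem_erase.1 hC2).1
    obtain ⟨v1, l1, c1⟩ := hT C1 hC1
    obtain ⟨v2, l2, c2⟩ := hT C2 hC2'
    set a := nl (fun _ => True) (T C1) with ha
    set b := nl (fun _ => True) (T C2) with hb
    have hab : b ≤ a := hmax1 C2 hC2'
    have hbpos : 1 ≤ b := nl_pos _ _
    obtain ⟨x1, hx1, hclx1⟩ := Finset.mem_image.1 hC1
    obtain ⟨x2, hx2, hclx2⟩ := Finset.mem_image.1 hC2'
    have hcomb := combine x1 hx1 x2 hx2 (by rw [hclx1, hclx2]; exact hne12.symm) (T C1) (T C2)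
      v1 v2 (by rw [hclx1]; exact l1) (by rw [hclx2]; exact l2)
    refine ⟨node (T C1) (T C2), hcomb.1, hcomb.2, ?_⟩
    have hnl : nl (fun _ => True) (node (T C1) (T C2)) = a + b := by
      simp only [nl, if_true]
      rw [ha, hb]
    rw [hnl]
    have hsum : ∑ C ∈ 𝒞, (C.card : ℝ) ≤ (a : ℝ) ^ e + ((K : ℝ) - 1) * (b : ℝ) ^ e := by
      rw [← Finset.add_sum_erase 𝒞 _ hC1]
      have h3 : ∑ C ∈ 𝒞.erase C1, (C.card : ℝ) ≤ (𝒞.erase C1).card • ((b : ℝ) ^ e) := by
        apply Finset.sum_le_card_nsmul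
        intro C hC
        refine (hT C (Finset.mem_of_mem_erase hC)).2.2.trans ?_
        apply Real.rpow_le_rpow (by positivity) _ (by linarith)
        exact_mod_cast hmax2 C hC
      rw [Finset.card_erase_of_mem hC1, nsmul_eq_mul] at h3
      have h4 : (((𝒞.card - 1 : ℕ) : ℝ)) ≤ (K : ℝ) - 1 := by
        have h5 : 1 ≤ 𝒞.card := h𝒞ne.card_pos
        rw [Nat.cast_sub h5]
        have : (𝒞.card : ℝ) ≤ K := by exact_mod_cast hnum
        push_cast
        linarith
      have h5 : 0 ≤ (b : ℝ) ^ e := by positivity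
      have h6 := mul_le_mul_of_nonneg_right h4 h5
      linarith
    have hfin := conv_ineq (e := e) (a := a) (b := b) he (by exact_mod_cast hbpos)
      (by exact_mod_cast hab)
    rw [h2K] at hfin
    have hcov : (W.card : ℝ) ≤ ∑ C ∈ 𝒞, (C.card : ℝ) := by exact_mod_cast hcover
    push_cast
    linarith

/-- **Main theorem.** -/
theorem main [Fintype V] {ρ : V → V → ℕ} (hρ : IsUltrametric ρ) (K : ℕ)
    (hK : ∀ S : Finset V, Equilateral ρ S → S.card ≤ K) {c : Finset V → Fin 2}
    (hc : IsLocal ρ c) (s t : ℕ) (hs : ∀ S : Finset V, Mono c 0 S → S.card < s)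
    (ht : ∀ S : Finset V, Mono c 1 S → S.card < t) :
    Fintype.card V ≤ K ^ ((s - 2) * (t - 2)) := by
  rcases isEmpty_or_nonempty V with hV | hV
  · rw [Fintype.card_eq_zero]
    exact Nat.zero_le _
  rcases Nat.lt_or_ge K 2 with hK2 | hK2
  · -- at most one point
    have h1 : Fintype.card V ≤ 1 := by
      by_contra hcon
      push Not at hcon
      rw [← Finset.card_univ] at hcon
      obtain ⟨x, _, y, _, hxy⟩ := Finset.one_lt_card.1 hcon
      have h2 := hK {x, y} ⟨ρ x y, ?_⟩
      · rw [Finset.card_pair hxy] at h2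
        omega
      · intro a ha b hb hab
        simp only [Finset.mem_insert, Finset.mem_singleton] at ha hb
        rcases ha with rfl | rfl <;> rcases hb with rfl | rfl
        · exact absurd rfl hab
        · rfl
        · exact hρ.symm _ _
        · exact absurd rfl hab
    have h3 : 1 ≤ K := by
      obtain ⟨x⟩ := hV
      have := hK {x} ⟨0, by
        intro a ha b hb hab
        simp only [Finset.mem_singleton] at ha hb
        exact absurd (ha.trans hb.symm) hab⟩
      simpa using this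
    exact h1.trans (Nat.one_le_pow _ _ h3)
  · obtain ⟨T, hT1, _, hT3⟩ := grow hρ K hK2 hK _ (Finset.univ : Finset V) le_rfl
      Finset.univ_nonempty
    have m0 := mu_lt hρ hc 0 s hs T hT1 (fun _ => True)
    have m1 := mu_lt hρ hc 1 t ht T hT1 (fun _ => True)
    have hle := nl_le c T T (self_mem_sub T) (fun _ => True)
    have hle2 : nl (fun _ => True) T ≤ 2 ^ ((s - 2) * (t - 2)) :=
      hle.trans (Nat.pow_le_pow_right (by norm_num) (Nat.mul_le_mul (by omega) (by omega)))
    rw [Finset.card_univ] at hT3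
    have he : 0 ≤ Real.logb 2 K := Real.logb_nonneg (by norm_num) (by exact_mod_cast (by omega))
    have h5 : (Fintype.card V : ℝ) ≤ (((2:ℝ) ^ ((s - 2) * (t - 2))) : ℝ) ^ (Real.logb 2 K) := by
      refine hT3.trans (Real.rpow_le_rpow (by positivity) ?_ he)
      exact_mod_cast hle2
    have h6 : (((2:ℝ) ^ ((s - 2) * (t - 2))) : ℝ) ^ (Real.logb 2 K) =
        (K : ℝ) ^ ((s - 2) * (t - 2)) := by
      rw [← Real.rpow_natCast, ← Real.rpow_mul (by norm_num), mul_comm,
        Real.rpow_mul (by norm_num), Real.rpow_logb (by norm_num) (by norm_num)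
        (by positivity), Real.rpow_natCast]
    rw [h6] at h5
    exact_mod_cast h5

end Pool.Agent.W205.UL
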