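import Pool.Agent.H278R2.UltraLocal

/-!
# Leaf numbers of coloured binary trees with two colours

`nl Q t` is the largest number of leaves of a tree induced by `t` whose branching nodes satisfy `Q`.
Main result: for a two-colouring, `nl Q t ≤ 2 ^ (mu 0 * mu 1)`.
-/

set_option autoImplicit false
set_option linter.unusedSectionVars false

namespace Pool.Agent.W205.UL

open Pool.Agent.H278R2.Ultra Pool.Agent.H278R2.Ultra.BT Pool.Agent.H278R2.UltraLocal

variable {V : Type*} [DecidableEq V]

open Classical in
/-- The largest number of leaves of an induced tree with branching nodes in `Q`. -/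
noncomputable def nl (Q : BT V → Prop) : BT V → ℕ
  | leaf _ => 1
  | node l r => if Q (node l r) then nl Q l + nl Q r else max (nl Q l) (nl Q r)

theorem nl_pos (Q : BT V → Prop) (t : BT V) : 1 ≤ nl Q t := by
  induction t with
  | leaf x => simp [nl]
  | node l r ihl ihr =>
    by_cases h : Q (node l r)
    · simp only [nl, h, if_true]; omega
    · simp only [nl, h, if_false]; omega

/-- splitting the branching nodes into two classes -/
theorem nl_split {Q Q1 Q2 : BT V → Prop} (t : BT V)
    (h : ∀ a b, node a b ∈ sub t → Q (node a b) → Q1 (node a b) ∨ Q2 (node a b)) :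
    nl Q t ≤ nl Q1 t * nl Q2 t := by
  induction t with
  | leaf x => simp [nl]
  | node l r ihl ihr =>
    have b1 := ihl (fun a b hu => h a b (by rw [mem_sub_node]; exact Or.inr (Or.inl hu)))
    have b2 := ihr (fun a b hu => h a b (by rw [mem_sub_node]; exact Or.inr (Or.inr hu)))
    have h0 := h l r (self_mem_sub _)
    have p1 := nl_pos Q1 l
    have p2 := nl_pos Q2 l
    have p3 := nl_pos Q1 r
    have p4 := nl_pos Q2 r
    -- lower bounds for the two factors
    have m1 : max (nl Q1 l) (nl Q1 r) ≤ nl Q1 (node l r) := by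
      by_cases hq : Q1 (node l r)
      · simp only [nl, hq, if_true]; omega
      · simp only [nl, hq, if_false]; omega
    have m2 : max (nl Q2 l) (nl Q2 r) ≤ nl Q2 (node l r) := by
      by_cases hq : Q2 (node l r)
      · simp only [nl, hq, if_true]; omega
      · simp only [nl, hq, if_false]; omega
    by_cases hQ : Q (node l r)
    · have eQ : nl Q (node l r) = nl Q l + nl Q r := by simp only [nl, hQ, if_true]
      rw [eQ]
      rcases h0 hQ with h1 | h2
      · have e1 : nl Q1 (node l r) = nl Q1 l + nl Q1 r := by simp only [nl, h1, if_true]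
        rw [e1, add_mul]
        have k1 : nl Q1 l * nl Q2 l ≤ nl Q1 l * nl Q2 (node l r) :=
          Nat.mul_le_mul_left _ ((le_max_left _ _).trans m2)
        have k2 : nl Q1 r * nl Q2 r ≤ nl Q1 r * nl Q2 (node l r) :=
          Nat.mul_le_mul_left _ ((le_max_right _ _).trans m2)
        omega
      · have e1 : nl Q2 (node l r) = nl Q2 l + nl Q2 r := by simp only [nl, h2, if_true]
        rw [e1, mul_add]
        have k1 : nl Q1 l * nl Q2 l ≤ nl Q1 (node l r) * nl Q2 l :=
          Nat.mul_le_mul_right _ ((le_max_left _ _).trans m1)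
        have k2 : nl Q1 r * nl Q2 r ≤ nl Q1 (node l r) * nl Q2 r :=
          Nat.mul_le_mul_right _ ((le_max_right _ _).trans m1)
        omega
    · have eQ : nl Q (node l r) = max (nl Q l) (nl Q r) := by simp only [nl, hQ, if_false]
      rw [eQ]
      refine max_le (b1.trans ?_) (b2.trans ?_)
      · exact Nat.mul_le_mul ((le_max_left _ _).trans m1) ((le_max_left _ _).trans m2)
      · exact Nat.mul_le_mul ((le_max_right _ _).trans m1) ((le_max_right _ _).trans m2)

/-- Walking down to the larger subtree: if no node splits off a large product, there are few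
leaves. -/
theorem nl_path (Q : BT V → Prop) (M : ℕ) (t : BT V)
    (h : ∀ a b, node a b ∈ sub t → Q (node a b) → nl Q a * nl Q b ≤ M) :
    nl Q t * nl Q t ≤ 1 + 3 * ht Q t * M := by
  induction t with
  | leaf x => simp [nl]
  | node l r ihl ihr =>
    have b1 := ihl (fun a b hu => h a b (by rw [mem_sub_node]; exact Or.inr (Or.inl hu)))
    have b2 := ihr (fun a b hu => h a b (by rw [mem_sub_node]; exact Or.inr (Or.inr hu)))
    have h0 := h l r (self_mem_sub _)
    have c1 : 3 * ht Q l * M ≤ 3 * max (ht Q l) (ht Q r) * M :=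
      Nat.mul_le_mul_right _ (Nat.mul_le_mul_left _ (le_max_left _ _))
    have c2 : 3 * ht Q r * M ≤ 3 * max (ht Q l) (ht Q r) * M :=
      Nat.mul_le_mul_right _ (Nat.mul_le_mul_left _ (le_max_right _ _))
    by_cases hQ : Q (node l r)
    · have hM := h0 hQ
      simp only [nl, ht, hQ, if_true]
      have e : 3 * (max (ht Q l) (ht Q r) + 1) * M = 3 * max (ht Q l) (ht Q r) * M + 3 * M := by
        ring
      rw [e]
      rcases le_total (nl Q l) (nl Q r) with hle | hle
      · have k : nl Q l * nl Q l ≤ nl Q l * nl Q r := Nat.mul_le_mul_left _ hle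
        nlinarith
      · have k : nl Q r * nl Q r ≤ nl Q l * nl Q r := Nat.mul_le_mul_right _ hle
        nlinarith
    · simp only [nl, ht, hQ, if_false]
      rcases le_total (nl Q l) (nl Q r) with hle | hle
      · rw [max_eq_right hle]; omega
      · rw [max_eq_left hle]; omega

/-- binomial coefficients are smaller than a third of the power of two -/
theorem choose_third (n k : ℕ) (hk : 1 ≤ k) (hkn : k < n) : 3 * (n.choose k) < 2 ^ n + 3 := by
  rcases Nat.lt_or_ge n 5 with hn | hn
  · interval_cases n <;> interval_cases k <;> simp [Nat.choose]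
  · -- `16 * n.choose k ≤ 5 * 2 ^ n`
    have key : ∀ m, 5 ≤ m → ∀ j, 16 * m.choose j ≤ 5 * 2 ^ m := by
      intro m hm
      induction m, hm using Nat.le_induction with
      | base =>
        intro j
        rcases Nat.lt_or_ge j 6 with hj | hj
        · interval_cases j <;> simp [Nat.choose]
        · rw [Nat.choose_eq_zero_of_lt (by omega)]; simp
      | succ m hm ih =>
        intro j
        rcases j with _ | j
        · have h1 := ih 0
          rw [Nat.choose_zero_right] at h1 ⊢
          rw [pow_succ]
          omega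
        · rw [Nat.choose_succ_succ]
          have h1 := ih j
          have h2 := ih (j + 1)
          rw [pow_succ]
          simp only [Nat.succ_eq_add_one] at *
          omega
    have := key n hn k
    omega

theorem mem_sub_left {a b t : BT V} (h : node a b ∈ sub t) : a ∈ sub t := by
  induction t with
  | leaf x => simp [sub] at h
  | node l r ihl ihr =>
    rw [mem_sub_node] at h ⊢
    rcases h with h | h | h
    · cases h
      exact Or.inr (Or.inl (self_mem_sub _))
    · exact Or.inr (Or.inl (ihl h))
    · exact Or.inr (Or.inr (ihr h))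

theorem mem_sub_right {a b t : BT V} (h : node a b ∈ sub t) : b ∈ sub t := by
  induction t with
  | leaf x => simp [sub] at h
  | node l r ihl ihr =>
    rw [mem_sub_node] at h ⊢
    rcases h with h | h | h
    · cases h
      exact Or.inr (Or.inr (self_mem_sub _))
    · exact Or.inr (Or.inl (ihl h))
    · exact Or.inr (Or.inr (ihr h))

/-- **Two colours: the number of leaves is at most `2 ^ (mu 0 * mu 1)`.** -/
theorem nl_le (c : Finset V → Fin 2) (t : BT V) : ∀ u ∈ sub t, ∀ Q : BT V → Prop,
    nl Q u ≤ 2 ^ (mu c 0 u Q * mu c 1 u Q) := by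
  induction t with
  | leaf x =>
    intro u hu Q
    simp only [sub, Set.mem_singleton_iff] at hu
    rw [hu]
    simp [nl, mu]
  | node l r ihl ihr =>
    intro u hu Q
    rw [mem_sub_node] at hu
    rcases hu with hu | hu | hu
    rotate_left
    · exact ihl u hu Q
    · exact ihr u hu Q
    -- the induction hypothesis for all proper subtrees
    have IH : ∀ s, (s ∈ sub l ∨ s ∈ sub r) → ∀ Q : BT V → Prop,
        nl Q s ≤ 2 ^ (mu c 0 s Q * mu c 1 s Q) := by
      intro s hs Q
      rcases hs with hs | hs
      · exact ihl s hs Q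
      · exact ihr s hs Q
    have hproper : ∀ a b, node a b ∈ sub u → (a ∈ sub l ∨ a ∈ sub r) ∧ (b ∈ sub l ∨ b ∈ sub r) := by
      intro a b hab
      rw [hu, mem_sub_node] at hab
      rcases hab with hab | hab | hab
      · cases hab
        exact ⟨Or.inl (self_mem_sub _), Or.inr (self_mem_sub _)⟩
      · exact ⟨Or.inl (mem_sub_left hab), Or.inl (mem_sub_right hab)⟩
      · exact ⟨Or.inr (mem_sub_left hab), Or.inr (mem_sub_right hab)⟩
    have hht := ht_le_choose c u Q
    set x := mu c 0 u Q with hx
    set y := mu c 1 u Q with hy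
    set N := nl Q u with hN
    rcases Nat.lt_or_ge N 2 with hN2 | hN2
    · have : 1 ≤ 2 ^ (x * y) := Nat.one_le_two_pow
      omega
    -- some node splits off a large product
    have hex : ∃ a b, node a b ∈ sub u ∧ Q (node a b) ∧
        N * N ≤ nl Q a * nl Q b * 2 ^ (x + y) := by
      by_contra hcon
      push Not at hcon
      set M := (N * N - 1) / 2 ^ (x + y) with hM
      have h2 : 0 < 2 ^ (x + y) := Nat.two_pow_pos _
      have hp := nl_path Q M u (by
        intro a b hab hQ
        have h3 := hcon a b hab hQ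
        rw [hM, Nat.le_div_iff_mul_le h2]
        omega)
      rw [← hN] at hp
      have hMle : M * 2 ^ (x + y) ≤ N * N - 1 := Nat.div_mul_le_self _ _
      have hNN : 4 ≤ N * N := Nat.mul_le_mul hN2 hN2
      -- the height is positive, so `x, y` are positive
      have hH : 1 ≤ ht Q u := by
        by_contra h0
        have h0' : ht Q u = 0 := by omega
        rw [h0'] at hp
        omega
      have hx1 : 1 ≤ x := by
        by_contra h0
        have h0' : x = 0 := by omega
        rw [h0'] at hht
        simp only [Nat.choose_zero_right] at hht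
        omega
      have hy1 : 1 ≤ y := by
        by_contra h0
        have h0' : y = 0 := by omega
        rw [h0'] at hht
        simp only [Nat.add_zero, Nat.choose_self] at hht
        omega
      have hc := choose_third (x + y) x hx1 (by omega)
      -- contradiction
      have h4 : 3 * ht Q u < 2 ^ (x + y) := by omega
      have h5 : (3 * ht Q u * M) * 2 ^ (x + y) ≤ 3 * ht Q u * (N * N - 1) := by
        rw [mul_assoc]
        exact Nat.mul_le_mul_left _ hMle
      have h6 : (N * N - 1) * 2 ^ (x + y) ≤ (3 * ht Q u * M) * 2 ^ (x + y) :=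
        Nat.mul_le_mul_right _ (by omega)
      have h7 : (N * N - 1) * (3 * ht Q u) < (N * N - 1) * 2 ^ (x + y) :=
        Nat.mul_lt_mul_of_pos_left h4 (by omega)
      have h8 : (N * N - 1) * (3 * ht Q u) = 3 * ht Q u * (N * N - 1) := Nat.mul_comm _ _
      omega
    obtain ⟨a, b, hab, hQ, hprod⟩ := hex
    obtain ⟨pa, pb⟩ := hproper a b hab
    have split : ∀ (s : BT V) (z : V), nl Q s ≤ nl (fun u => Q u ∧ P c 0 z u) s
        * nl (fun u => Q u ∧ P c 1 z u) s := by
      intro s z
      apply nl_split
      intro a b _ hQu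
      have h2 : c {hd a, hd b, z} = 0 ∨ c {hd a, hd b, z} = 1 := by
        generalize c {hd a, hd b, z} = v
        fin_cases v <;> simp
      rcases h2 with h2 | h2
      · exact Or.inl ⟨hQu, h2⟩
      · exact Or.inr ⟨hQu, h2⟩
    have bound : ∀ s, (s ∈ sub l ∨ s ∈ sub r) → s ∈ sub u → ∀ z,
        nl Q s ≤ 2 ^ (mu c 0 s (fun u => Q u ∧ P c 0 z u) * y +
          x * mu c 1 s (fun u => Q u ∧ P c 1 z u)) := by
      intro s hs hsu z
      refine (split s z).trans ?_
      rw [pow_add]
      have e1 : mu c 1 s (fun u => Q u ∧ P c 0 z u) ≤ y :=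
        (mu_mono c 1 s (fun u hu => hu.1)).trans (mu_sub_le c 1 hsu Q)
      have e0 : mu c 0 s (fun u => Q u ∧ P c 1 z u) ≤ x :=
        (mu_mono c 0 s (fun u hu => hu.1)).trans (mu_sub_le c 0 hsu Q)
      exact Nat.mul_le_mul
        ((IH s hs _).trans (Nat.pow_le_pow_right (by norm_num) (Nat.mul_le_mul_left _ e1)))
        ((IH s hs _).trans (Nat.pow_le_pow_right (by norm_num) (Nat.mul_le_mul_right _ e0)))
    have ba := bound a pa (mem_sub_left hab) (hd b)
    have bb := bound b pb (mem_sub_right hab) (hd a)
    have q0 : mu c 0 a (fun u => Q u ∧ P c 0 (hd b) u) + mu c 0 b (fun u => Q u ∧ P c 0 (hd a) u)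
        + 1 ≤ x := (mu_add_le c 0 a b Q hQ).trans (mu_sub_le c 0 hab Q)
    have q1 : mu c 1 a (fun u => Q u ∧ P c 1 (hd b) u) + mu c 1 b (fun u => Q u ∧ P c 1 (hd a) u)
        + 1 ≤ y := (mu_add_le c 1 a b Q hQ).trans (mu_sub_le c 1 hab Q)
    generalize mu c 0 a (fun u => Q u ∧ P c 0 (hd b) u) = x1 at *
    generalize mu c 0 b (fun u => Q u ∧ P c 0 (hd a) u) = x2 at *
    generalize mu c 1 a (fun u => Q u ∧ P c 1 (hd b) u) = y1 at *
    generalize mu c 1 b (fun u => Q u ∧ P c 1 (hd a) u) = y2 at *
    have h1 : N * N ≤ 2 ^ (x * y) * 2 ^ (x * y) := by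
      refine hprod.trans ((Nat.mul_le_mul_right _ (Nat.mul_le_mul ba bb)).trans ?_)
      rw [← pow_add, ← pow_add, ← pow_add]
      apply Nat.pow_le_pow_right (by norm_num)
      have r1 : (x1 + x2 + 1) * y ≤ x * y := Nat.mul_le_mul_right _ q0
      have r2 : x * (y1 + y2 + 1) ≤ x * y := Nat.mul_le_mul_left _ q1
      have r3 : (x1 + x2 + 1) * y = x1 * y + x2 * y + y := by ring
      have r4 : x * (y1 + y2 + 1) = x * y1 + x * y2 + x := by ring
      omega
    exact Nat.mul_self_le_mul_self_iff.1 h1

end Pool.Agent.W205.UL
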